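import Pool.Agent.H418R3.FB.Stmts

/-! Task Meas of the project FB: the closed span of a measurable set of blocks is Effros measurable. -/

set_option autoImplicit false
open Set Topology Filter MeasureTheory

namespace Pool.Agent.H418R3.FB

namespace MeasH94

/-- the vectors of the blocks in `A` -/
def VV (σ : ℕ → List ℕ) (e : ℕ → ℕ → CR) (A : Set ℕ) : Set CR :=
  {x | ∃ b ∈ A, ∃ a, 0 < a ∧ a < (σ b).length ∧ x = e b a}

lemma VV_mono (σ : ℕ → List ℕ) (e : ℕ → ℕ → CR) {A B : Set ℕ} (h : A ⊆ B) :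
    VV σ e A ⊆ VV σ e B := by
  rintro x ⟨b, hb, a, h1, h2, h3⟩
  exact ⟨b, h hb, a, h1, h2, h3⟩

lemma mem_span_iff (σ : ℕ → List ℕ) (e : ℕ → ℕ → CR) (A : Set ℕ) (x : CR) :
    x ∈ Submodule.span ℝ (VV σ e A) ↔
      ∃ F : Finset ℕ, (F : Set ℕ) ⊆ A ∧ x ∈ Submodule.span ℝ (VV σ e (F : Set ℕ)) := by
  classical
  constructor
  · intro hx
    induction hx using Submodule.span_induction with
    | mem x hx =>
      obtain ⟨b, hb, a, h1, h2, h3⟩ := hx
      refine ⟨{b}, by simpa using hb, Submodule.subset_span ⟨b, by simp, a, h1, h2, h3⟩⟩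
    | zero => exact ⟨∅, by simp, Submodule.zero_mem _⟩
    | add x y _ _ hx hy =>
      obtain ⟨F, hF, hF'⟩ := hx
      obtain ⟨G, hG, hG'⟩ := hy
      refine ⟨F ∪ G, by
        rw [Finset.coe_union]
        exact union_subset hF hG, Submodule.add_mem _ ?_ ?_⟩
      · refine Submodule.span_mono (VV_mono σ e ?_) hF'
        rw [Finset.coe_union]
        exact subset_union_left
      · refine Submodule.span_mono (VV_mono σ e ?_) hG'
        rw [Finset.coe_union]
        exact subset_union_right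
    | smul c x _ hx =>
      obtain ⟨F, hF, hF'⟩ := hx
      exact ⟨F, hF, Submodule.smul_mem _ c hF'⟩
  · rintro ⟨F, hF, hF'⟩
    exact Submodule.span_mono (VV_mono σ e hF) hF'

lemma hit_iff (σ : ℕ → List ℕ) (e : ℕ → ℕ → CR) (A : Set ℕ) (U : Set CR) (hU : IsOpen U) :
    ((XX σ e A : Set CR) ∩ U).Nonempty ↔
      ∃ F : Finset ℕ, (F : Set ℕ) ⊆ A ∧
        ((Submodule.span ℝ (VV σ e (F : Set ℕ)) : Set CR) ∩ U).Nonempty := by
  have h1 : (XX σ e A : Set CR) = closure (Submodule.span ℝ (VV σ e A) : Set CR) :=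
    Submodule.topologicalClosure_coe _
  rw [h1, closure_inter_open_nonempty_iff hU]
  constructor
  · rintro ⟨x, hx, hxU⟩
    obtain ⟨F, hF, hF'⟩ := (mem_span_iff σ e A x).mp hx
    exact ⟨F, hF, x, hF', hxU⟩
  · rintro ⟨F, hF, x, hx, hxU⟩
    exact ⟨x, (mem_span_iff σ e A x).mpr ⟨F, hF, hx⟩, hxU⟩

end MeasH94

open MeasH94 in
theorem taskMeas : TaskMeas := by
  intro σ e Z _ f hf h
  refine @measurable_generateFrom Z SF _ _ _ ?_
  rintro S ⟨U, hU, rfl⟩
  have e1 : (fun z => (⟨XX σ e (f z), h z⟩ : SF)) ⁻¹'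
      {X : SF | ((X.1 : Set CR) ∩ U).Nonempty}
      = ⋃ F : Finset ℕ, {z | (F : Set ℕ) ⊆ f z} ∩
        {_z : Z | ((Submodule.span ℝ (VV σ e (F : Set ℕ)) : Set CR) ∩ U).Nonempty} := by
    ext z
    simp only [mem_preimage, mem_ofPred_eq, mem_iUnion, mem_inter_iff]
    exact hit_iff σ e (f z) U hU
  rw [e1]
  refine MeasurableSet.iUnion (fun F => MeasurableSet.inter ?_ (MeasurableSet.const _))
  have e2 : {z | (F : Set ℕ) ⊆ f z} = ⋂ b ∈ F, {z | b ∈ f z} := by
    ext z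
    simp only [mem_ofPred_eq, mem_iInter]
    constructor
    · intro h2 b hb
      exact h2 hb
    · intro h2 b hb
      exact h2 b hb
  rw [e2]
  exact Finset.measurableSet_biInter F (fun b _ => hf b)

end Pool.Agent.H418R3.FB
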